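import Pool.Agent.H300R2.FB.Defs
import Pool.Agent.H442R2.EHI.Minor

/-!
# FB project, task F1: large sieve in several variables (helper291)
-/

namespace Pool.Agent.H291R2.FB

open Finset Polynomial
open Pool.Agent.H469R2.NK (e norm_e e_add conj_e e_zero)
open Pool.Agent.H442R2.EHI
open Pool.Agent.H300R2.BH
open Pool.Agent.H300R2.FB

namespace LsAux

open MinorAux

lemma e_sum {ι : Type*} (s : Finset ι) (f : ι → ℝ) : e (∑ i ∈ s, f i) = ∏ i ∈ s, e (f i) := by
  classical
  induction s using Finset.induction_on with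
  | empty => simp [e_zero]
  | insert a s ha ih => rw [sum_insert ha, prod_insert ha, e_add, ih]

/-- the weight function -/
noncomputable def om (N H : ℕ) (a : ℕ) : ℝ :=
  (Real.pi / (2 * H)) ^ 2 * ‖∑ j ∈ range H, e ((j : ℝ) * (((a : ℝ) + 1) / N))‖ ^ 2

lemma om_nonneg (N H a : ℕ) : 0 ≤ om N H a := by unfold om; positivity

lemma om_ge (N M H : ℕ) (hN : 0 < N) (hH : 1 ≤ H) (hMH : 2 * M * H ≤ N) (a : ℕ)
    (ha : a < M) : 1 ≤ om N H a := by
  have hN0 : (0 : ℝ) < N := by exact_mod_cast hN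
  have hH0 : (0 : ℝ) < H := by exact_mod_cast hH
  have hpi := Real.pi_pos
  have h := weight H (((a : ℝ) + 1) / N) (by positivity) (by
    have h1 : ((a : ℝ) + 1) ≤ M := by exact_mod_cast ha
    have h2 : 2 * (M : ℝ) * H ≤ N := by exact_mod_cast hMH
    rw [mul_div_assoc', div_le_div_iff₀ hN0 (by norm_num)]
    nlinarith)
  unfold om
  have h3 : 1 ≤ (Real.pi / (2 * H)) * ‖∑ j ∈ range H, e ((j : ℝ) * (((a : ℝ) + 1) / N))‖ := by
    calc (1 : ℝ) = (Real.pi / (2 * H)) * ((2 / Real.pi) * H) := by field_simp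
      _ ≤ _ := mul_le_mul_of_nonneg_left h (by positivity)
  rw [← mul_pow]
  exact one_le_pow₀ h3

/-- its Fourier transform -/
noncomputable def gh (N H : ℕ) (u : ℤ) : ℂ :=
  ∑ a ∈ range N, (om N H a : ℂ) * e ((u : ℝ) * a / N)

lemma gh_eq (N H : ℕ) (hN : 0 < N) (u : ℤ) :
    gh N H u = (((Real.pi / (2 * H)) ^ 2 : ℝ) : ℂ) * ∑ t ∈ range H, ∑ t' ∈ range H,
      e (((t : ℝ) - t') / N) * (if (N : ℤ) ∣ (t : ℤ) - t' + u then (N : ℂ) else 0) := by
  have h1 : ∀ a ∈ range N, (om N H a : ℂ) * e ((u : ℝ) * a / N) =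
      (((Real.pi / (2 * H)) ^ 2 : ℝ) : ℂ) * ∑ t ∈ range H, ∑ t' ∈ range H,
        e (((t : ℝ) - t') / N) * e ((((t : ℤ) - t' + u : ℤ) : ℝ) * a / N) := by
    intro a _
    unfold om
    rw [Complex.ofReal_mul, mul_assoc]
    congr 1
    rw [Complex.ofReal_pow, ← Complex.mul_conj', map_sum, sum_mul_sum, sum_mul]
    apply sum_congr rfl; intro t _
    rw [sum_mul]
    apply sum_congr rfl; intro t' _
    rw [conj_e, ← e_add, ← e_add, ← e_add]
    congr 1
    push_cast
    ring
  unfold gh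
  rw [sum_congr rfl h1, ← mul_sum]
  congr 1
  rw [sum_comm]
  apply sum_congr rfl; intro t _
  rw [sum_comm]
  apply sum_congr rfl; intro t' _
  rw [← mul_sum, sum_period N hN]

lemma gh_zero (N M H : ℕ) (hN : 0 < N) (hM : 1 ≤ M) (hMH : 2 * M * H ≤ N) (u : ℤ)
    (hu : ¬ nint ((u : ℝ) / N) ≤ 1 / (2 * (M : ℝ))) : gh N H u = 0 := by
  have hN0 : (0 : ℝ) < N := by exact_mod_cast hN
  have hM0 : (0 : ℝ) < M := by exact_mod_cast hM
  rw [gh_eq N H hN]
  convert mul_zero _
  refine sum_eq_zero fun t ht => sum_eq_zero fun t' ht' => ?_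
  rw [mem_range] at ht ht'
  rw [if_neg, mul_zero]
  rintro ⟨w, hw⟩
  apply hu
  have h1 : (u : ℝ) / N - w = ((t' : ℝ) - t) / N := by
    have h2 : ((t : ℝ) - t' + u) = N * w := by exact_mod_cast hw
    field_simp
    linarith
  have h3 : nint ((u : ℝ) / N) ≤ |(u : ℝ) / N - w| := round_le _ _
  refine h3.trans ?_
  rw [h1, abs_div, abs_of_pos hN0, div_le_div_iff₀ hN0 (by positivity)]
  have h4 : |(t' : ℝ) - t| ≤ H := by
    have a1 : (t : ℝ) < H := by exact_mod_cast ht
    have a2 : (t' : ℝ) < H := by exact_mod_cast ht'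
    have a3 : (0 : ℝ) ≤ t := by positivity
    have a4 : (0 : ℝ) ≤ t' := by positivity
    rw [abs_le]; constructor <;> linarith
  have h5 : 2 * (M : ℝ) * H ≤ N := by exact_mod_cast hMH
  nlinarith

lemma gh_le (N M H : ℕ) (hN : 0 < N) (hM : 1 ≤ M) (hH : 4 ≤ H) (hMH : 2 * M * H ≤ N)
    (hNM : N < 2 * M * (H + 1)) (u : ℤ) : ‖gh N H u‖ ≤ 10 * M := by
  have hN0 : (0 : ℝ) < N := by exact_mod_cast hN
  have hM0 : (0 : ℝ) < M := by exact_mod_cast hM
  have hH0 : (0 : ℝ) < H := by exact_mod_cast (by omega : 0 < H)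
  have hpi := Real.pi_pos
  rw [gh_eq N H hN, norm_mul, Complex.norm_real, Real.norm_of_nonneg (by positivity)]
  have h1 : ‖∑ t ∈ range H, ∑ t' ∈ range H,
      e (((t : ℝ) - t') / N) * (if (N : ℤ) ∣ (t : ℤ) - t' + u then (N : ℂ) else 0)‖ ≤
      H * N := by
    refine (norm_sum_le _ _).trans ?_
    have h2 : ∀ t ∈ range H, ‖∑ t' ∈ range H,
        e (((t : ℝ) - t') / N) * (if (N : ℤ) ∣ (t : ℤ) - t' + u then (N : ℂ) else 0)‖ ≤ N := by
      intro t _
      refine (norm_sum_le _ _).trans ?_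
      have h3 : ∀ t' ∈ range H,
          ‖e (((t : ℝ) - t') / N) * (if (N : ℤ) ∣ (t : ℤ) - t' + u then (N : ℂ) else 0)‖ =
          if (N : ℤ) ∣ (t : ℤ) - t' + u then (N : ℝ) else 0 := by
        intro t' _
        rw [norm_mul, norm_e, one_mul]
        split_ifs <;> simp
      rw [sum_congr rfl h3, ← sum_filter, sum_const, nsmul_eq_mul]
      have h4 : ((range H).filter (fun t' : ℕ => (N : ℤ) ∣ (t : ℤ) - t' + u)).card ≤ 1 := by
        rw [card_le_one]
        intro a ha b hb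
        rw [mem_filter, mem_range] at ha hb
        have h5 : (N : ℤ) ∣ (b : ℤ) - a := by
          have h8 := dvd_sub ha.2 hb.2
          rwa [show (t : ℤ) - a + u - ((t : ℤ) - b + u) = (b : ℤ) - a by ring] at h8
        have hHN : H ≤ N := by nlinarith
        have h6 : |(b : ℤ) - a| < N := by
          rw [abs_lt]; constructor <;> omega
        have h7 := Int.eq_zero_of_abs_lt_dvd h5 h6
        omega
      calc (((range H).filter (fun t' : ℕ => (N : ℤ) ∣ (t : ℤ) - t' + u)).card : ℝ) * N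
          ≤ 1 * N := by
            apply mul_le_mul_of_nonneg_right _ hN0.le
            exact_mod_cast h4
        _ = N := one_mul _
    calc ∑ t ∈ range H, ‖∑ t' ∈ range H,
        e (((t : ℝ) - t') / N) * (if (N : ℤ) ∣ (t : ℤ) - t' + u then (N : ℂ) else 0)‖
        ≤ ∑ t ∈ range H, (N : ℝ) := sum_le_sum h2
      _ = H * N := by rw [sum_const, card_range, nsmul_eq_mul]
  calc (Real.pi / (2 * H)) ^ 2 * _ ≤ (Real.pi / (2 * H)) ^ 2 * (H * N) :=
        mul_le_mul_of_nonneg_left h1 (by positivity)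
    _ = Real.pi ^ 2 / 4 * (N / H) := by field_simp; ring
    _ ≤ 10 / 4 * (5 / 2 * M) := by
        have e4 : (N : ℝ) / H ≤ (5 / 2) * M := by
          rw [div_le_iff₀ hH0]
          have h1 : (N : ℝ) < 2 * M * (H + 1) := by exact_mod_cast hNM
          have h2 : (4 : ℝ) ≤ H := by exact_mod_cast hH
          nlinarith
        have h1 := Real.pi_lt_d2
        have h2 : Real.pi ^ 2 ≤ 10 := by nlinarith
        gcongr
    _ ≤ 10 * M := by linarith

end LsAux

open LsAux in
open Classical in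
/-- F1. Large sieve in several variables. -/
theorem ls_multi {ι β : Type*} [Fintype ι] [DecidableEq ι] (N : ℕ) (hN : 1 ≤ N) (M : ι → ℕ)
    (hM : ∀ i, 1 ≤ M i ∧ 8 * M i ≤ N) (I : Finset β) (u : β → ι → ℤ) (z : β → ℂ) :
    ∑ x ∈ Fintype.piFinset (fun i => range (M i)),
      ‖∑ b ∈ I, z b * e ((∑ i, (u b i : ℝ) * (x i : ℝ)) / N)‖ ^ 2 ≤
    (∏ i, (10 * (M i : ℝ))) * ∑ b ∈ I, ∑ b' ∈ I,
      (if ∀ i, nint (((u b i - u b' i : ℤ) : ℝ) / N) ≤ 1 / (2 * (M i : ℝ)) then ‖z b‖ * ‖z b'‖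
        else 0) := by
  have hN' : 0 < N := hN
  set H : ι → ℕ := fun i => N / (2 * M i) with hHdef
  have hH4 : ∀ i, 4 ≤ H i := by
    intro i
    have := hM i
    exact (Nat.le_div_iff_mul_le (by omega)).mpr (by omega)
  have hMH : ∀ i, 2 * M i * H i ≤ N := fun i => Nat.mul_div_le N (2 * M i)
  have hNM : ∀ i, N < 2 * M i * (H i + 1) := by
    intro i
    have := hM i
    exact Nat.lt_mul_div_succ N (by omega)
  set S : (ι → ℕ) → ℂ := fun x => ∑ b ∈ I, z b * e ((∑ i, (u b i : ℝ) * (x i : ℝ)) / N) with hS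
  -- extension
  have h1 : ∑ x ∈ Fintype.piFinset (fun i => range (M i)), ‖S x‖ ^ 2 ≤
      ∑ x ∈ Fintype.piFinset (fun _ : ι => range N), (∏ i, om N (H i) (x i)) * ‖S x‖ ^ 2 := by
    calc ∑ x ∈ Fintype.piFinset (fun i => range (M i)), ‖S x‖ ^ 2
        ≤ ∑ x ∈ Fintype.piFinset (fun i => range (M i)), (∏ i, om N (H i) (x i)) * ‖S x‖ ^ 2 := by
          apply sum_le_sum; intro x hx
          rw [Fintype.mem_piFinset] at hx
          have h2 : 1 ≤ ∏ i, om N (H i) (x i) := by
            calc (1 : ℝ) = ∏ _i : ι, (1 : ℝ) := by simp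
              _ ≤ _ := by
                apply Finset.prod_le_prod
                · intro i _; exact zero_le_one
                · intro i _
                  exact om_ge N (M i) (H i) hN' (by have := hH4 i; omega) (hMH i) (x i)
                    (mem_range.mp (hx i))
          calc ‖S x‖ ^ 2 = 1 * ‖S x‖ ^ 2 := (one_mul _).symm
            _ ≤ _ := mul_le_mul_of_nonneg_right h2 (by positivity)
      _ ≤ _ := by
          apply sum_le_sum_of_subset_of_nonneg
          · apply Fintype.piFinset_subset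
            intro i
            rw [range_subset_range]
            have := hM i
            omega
          · intro x _ _
            exact mul_nonneg (Finset.prod_nonneg fun i _ => om_nonneg _ _ _) (by positivity)
  refine h1.trans ?_
  -- expansion
  have hexp : ((∑ x ∈ Fintype.piFinset (fun _ : ι => range N),
      (∏ i, om N (H i) (x i)) * ‖S x‖ ^ 2 : ℝ) : ℂ) =
      ∑ b ∈ I, ∑ b' ∈ I, z b * (starRingEnd ℂ) (z b') * ∏ i, gh N (H i) (u b i - u b' i) := by
    rw [Complex.ofReal_sum]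
    have h2 : ∀ x ∈ Fintype.piFinset (fun _ : ι => range N),
        (((∏ i, om N (H i) (x i)) * ‖S x‖ ^ 2 : ℝ) : ℂ) =
        ∑ b ∈ I, ∑ b' ∈ I, z b * (starRingEnd ℂ) (z b') *
          ∏ i, ((om N (H i) (x i) : ℂ) * e (((u b i - u b' i : ℤ) : ℝ) * (x i) / N)) := by
      intro x _
      rw [Complex.ofReal_mul, Complex.ofReal_pow, ← Complex.mul_conj']
      simp only [hS]
      rw [map_sum, sum_mul_sum, mul_sum]
      apply sum_congr rfl; intro b _
      rw [mul_sum]
      apply sum_congr rfl; intro b' _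
      rw [map_mul, conj_e, prod_mul_distrib, Complex.ofReal_prod]
      have h3 : ∏ i, e (((u b i - u b' i : ℤ) : ℝ) * (x i) / N) =
          e ((∑ i, (u b i : ℝ) * (x i : ℝ)) / N) * e (-((∑ i, (u b' i : ℝ) * (x i : ℝ)) / N)) := by
        rw [← e_sum, ← e_add]
        congr 1
        rw [← sub_eq_add_neg, ← sub_div, ← sum_sub_distrib, sum_div]
        apply sum_congr rfl; intro i _
        push_cast
        ring
      rw [h3]
      ring
    rw [sum_congr rfl h2, sum_comm]
    apply sum_congr rfl; intro b _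
    rw [sum_comm]
    apply sum_congr rfl; intro b' _
    rw [← mul_sum]
    congr 1
    unfold gh
    rw [Finset.prod_univ_sum]
  have hnn : 0 ≤ ∑ x ∈ Fintype.piFinset (fun _ : ι => range N),
      (∏ i, om N (H i) (x i)) * ‖S x‖ ^ 2 :=
    Finset.sum_nonneg fun x _ =>
      mul_nonneg (Finset.prod_nonneg fun i _ => om_nonneg _ _ _) (by positivity)
  have hnorm : ∑ x ∈ Fintype.piFinset (fun _ : ι => range N),
      (∏ i, om N (H i) (x i)) * ‖S x‖ ^ 2 =
      ‖∑ b ∈ I, ∑ b' ∈ I, z b * (starRingEnd ℂ) (z b') *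
        ∏ i, gh N (H i) (u b i - u b' i)‖ := by
    rw [← hexp, Complex.norm_real, Real.norm_of_nonneg hnn]
  rw [hnorm, mul_sum]
  refine (norm_sum_le _ _).trans (sum_le_sum fun b _ => ?_)
  rw [mul_sum]
  refine (norm_sum_le _ _).trans (sum_le_sum fun b' _ => ?_)
  rw [norm_mul, norm_mul, RCLike.norm_conj, norm_prod]
  split_ifs with hc
  · rw [mul_comm (∏ i, (10 * (M i : ℝ)))]
    apply mul_le_mul_of_nonneg_left _ (by positivity)
    apply Finset.prod_le_prod
    · intro i _; positivity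
    · intro i _
      exact gh_le N (M i) (H i) hN' (hM i).1 (hH4 i) (hMH i) (hNM i) _
  · push Not at hc
    obtain ⟨i, hi⟩ := hc
    have h4 : gh N (H i) (u b i - u b' i) = 0 :=
      gh_zero N (M i) (H i) hN' (hM i).1 (hMH i) _ (not_le.mpr hi)
    rw [Finset.prod_eq_zero (mem_univ i) (by rw [h4, norm_zero])]
    simp

end Pool.Agent.H291R2.FB
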